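import Pool.Agent.Work.MP_216d61_lc.Interface2

/-!
# MP_216d61_lc, block SD: treewidth and number of edges of periodic chains
-/

set_option autoImplicit false

namespace Pool.Agent.Work.MP_216d61_lc

open Set Relation

namespace SD

variable {r m : ℕ} (c : Chn (Fin r) (Fin m)) (n : ℕ)

open Classical in
theorem sum_succ (n : ℕ) : n ≤ (∑ i : Fin n, ∑ j : Fin n, if (i : ℕ) + 1 = j then 1 else 0) + 1 := by
  have h1 : ∀ i : Fin n, (if (i : ℕ) + 1 < n then 1 else 0) ≤
      ∑ j : Fin n, if (i : ℕ) + 1 = j then 1 else 0 := by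
    intro i
    split_ifs with h
    · refine le_trans ?_ (Finset.single_le_sum (f := fun j : Fin n => if (i : ℕ) + 1 = j then 1 else 0)
        (fun _ _ => Nat.zero_le _) (Finset.mem_univ ⟨(i : ℕ) + 1, h⟩))
      simp
    · exact Nat.zero_le _
  have h2 : n ≤ (∑ i : Fin n, if (i : ℕ) + 1 < n then 1 else 0) + 1 := by
    rw [Fin.sum_univ_eq_sum_range (fun i => if i + 1 < n then 1 else 0) n]
    cases n with
    | zero => exact Nat.zero_le _
    | succ n =>
      rw [Finset.sum_range_succ, if_neg (by omega), add_zero]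
      have : ∑ i ∈ Finset.range n, (if i + 1 < n + 1 then 1 else 0) = n := by
        rw [Finset.sum_congr rfl fun i hi => if_pos (by have := Finset.mem_range.mp hi; omega)]
        simp
      omega
  exact h2.trans (Nat.add_le_add_right (Finset.sum_le_sum fun i _ => h1 i) 1)

theorem e2_chain : n * c.ce ≤ e2 (c.G n) +
    2 * (@Finset.filter (Fin m × Fin m) (fun p => c.E1 p.1 p.2) (Classical.decPred _) Finset.univ).card := by
  classical
  set e1 := (@Finset.filter (Fin m × Fin m) (fun p => c.E1 p.1 p.2) (Classical.decPred _) Finset.univ).card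
    with he1
  have hE1 : e1 = ∑ x, ∑ y, if c.E1 x y then 1 else 0 := by
    rw [he1, Finset.card_filter, Fintype.sum_prod_type]
  have hA : (Finset.univ.filter fun p : Fin r × Fin m => c.A p.1 p.2).card =
      ∑ x, ∑ y, if c.A x y then 1 else 0 := by
    rw [Finset.card_filter, Fintype.sum_prod_type]
  set cA := (Finset.univ.filter fun p : Fin r × Fin m => c.A p.1 p.2).card with hcA
  have hce : c.ce = e2 c.E0 + 2 * e1 + 2 * cA := by
    unfold Chn.ce
    congr!
  have hT : e2 (c.G n) = (∑ a : Fin r, ∑ q : Fin n × Fin m, if c.A a q.2 then 1 else 0) +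
      ((∑ p : Fin n × Fin m, ∑ a : Fin r, if c.A a p.2 then 1 else 0) +
      ∑ p : Fin n × Fin m, ∑ q : Fin n × Fin m, if (c.G n).Adj (.inr p) (.inr q) then 1 else 0) := by
    rw [e2_eq_sum]
    simp only [Fintype.sum_sum_type, Finset.sum_add_distrib]
    have h0 : ∑ x : Fin r, ∑ y : Fin r, (if (c.G n).Adj (.inl x) (.inl y) then 1 else 0) = 0 := by
      refine Finset.sum_eq_zero fun x _ => Finset.sum_eq_zero fun y _ => if_neg fun h => h
    rw [h0, zero_add]
    have h0a : ∑ x : Fin r, ∑ q : Fin n × Fin m, (if (c.G n).Adj (.inl x) (.inr q) then 1 else 0) =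
        ∑ a : Fin r, ∑ q : Fin n × Fin m, if c.A a q.2 then 1 else 0 := rfl
    have h0b : ∑ p : Fin n × Fin m, ∑ x : Fin r, (if (c.G n).Adj (.inr p) (.inl x) then 1 else 0) =
        ∑ p : Fin n × Fin m, ∑ a : Fin r, if c.A a p.2 then 1 else 0 := rfl
    rw [h0a, h0b]
    ring
  have h1 : (∑ a : Fin r, ∑ q : Fin n × Fin m, if c.A a q.2 then 1 else 0) = n * cA := by
    rw [hA, Finset.mul_sum]
    refine Finset.sum_congr rfl fun a _ => ?_
    rw [Fintype.sum_prod_type]
    simp
  have h2 : (∑ p : Fin n × Fin m, ∑ a : Fin r, if c.A a p.2 then 1 else 0) = n * cA := by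
    rw [Finset.sum_comm]; exact h1
  have h3 : n * e2 c.E0 + 2 * n * e1 ≤ (∑ p : Fin n × Fin m, ∑ q : Fin n × Fin m,
      if (c.G n).Adj (.inr p) (.inr q) then 1 else 0) + 2 * e1 := by
    have h4 : ∀ p q : Fin n × Fin m, (if (c.G n).Adj (.inr p) (.inr q) then 1 else 0) =
        ((if p.1 = q.1 then 1 else 0) * (if c.E0.Adj p.2 q.2 then 1 else 0) +
        (if (p.1 : ℕ) + 1 = q.1 then 1 else 0) * (if c.E1 p.2 q.2 then 1 else 0)) +
        (if (q.1 : ℕ) + 1 = p.1 then 1 else 0) * (if c.E1 q.2 p.2 then 1 else 0) := by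
      rintro ⟨i, x⟩ ⟨j, y⟩
      have h5 : (c.G n).Adj (.inr (i, x)) (.inr (j, y)) ↔ (i = j ∧ c.E0.Adj x y) ∨
        ((i : ℕ) + 1 = j ∧ c.E1 x y) ∨ ((j : ℕ) + 1 = i ∧ c.E1 y x) := Iff.rfl
      rw [if_congr h5 rfl rfl]
      by_cases hij : i = j
      · subst hij
        have h6 : ¬ ((i : ℕ) + 1 = i) := by omega
        simp [h6]
      · by_cases hij1 : (i : ℕ) + 1 = j
        · have h6 : ¬ ((j : ℕ) + 1 = i) := by omega
          simp [hij, hij1, h6]
        · by_cases hij2 : (j : ℕ) + 1 = i
          · simp [hij, hij1, hij2]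
          · simp [hij, hij1, hij2]
    have h5 : (∑ p : Fin n × Fin m, ∑ q : Fin n × Fin m,
        (if (c.G n).Adj (.inr p) (.inr q) then 1 else 0)) =
        (∑ i : Fin n, ∑ j : Fin n, if i = j then 1 else 0) * e2 c.E0 +
        (∑ i : Fin n, ∑ j : Fin n, if (i : ℕ) + 1 = j then 1 else 0) * e1 +
        (∑ i : Fin n, ∑ j : Fin n, if (i : ℕ) + 1 = j then 1 else 0) * e1 := by
      have gen : ∀ (P : Fin n → Fin n → ℕ) (Q : Fin m → Fin m → ℕ),
          ∑ p : Fin n × Fin m, ∑ q : Fin n × Fin m, P p.1 q.1 * Q p.2 q.2 =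
          (∑ i, ∑ j, P i j) * (∑ x, ∑ y, Q x y) := by
        intro P Q
        rw [Fintype.sum_prod_type]
        simp only [Fintype.sum_prod_type]
        rw [Finset.sum_mul]
        refine Finset.sum_congr rfl fun i _ => ?_
        rw [Finset.sum_comm' (s := Finset.univ) (t := fun _ => Finset.univ) (t' := Finset.univ)
          (s' := fun _ => Finset.univ) (by simp)]
        rw [Finset.sum_mul]
        refine Finset.sum_congr rfl fun j _ => ?_
        rw [Finset.mul_sum]
        refine Finset.sum_congr rfl fun x _ => ?_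
        rw [Finset.mul_sum]
      simp only [h4, Finset.sum_add_distrib]
      rw [gen (fun i j => if i = j then 1 else 0) (fun x y => if c.E0.Adj x y then 1 else 0),
        gen (fun i j => if (i : ℕ) + 1 = j then 1 else 0) (fun x y => if c.E1 x y then 1 else 0),
        gen (fun i j => if (j : ℕ) + 1 = i then 1 else 0) (fun x y => if c.E1 y x then 1 else 0),
        e2_eq_sum, hE1]
      have h6 : (∑ i : Fin n, ∑ j : Fin n, if (j : ℕ) + 1 = i then 1 else 0) =
        ∑ i : Fin n, ∑ j : Fin n, if (i : ℕ) + 1 = j then 1 else 0 := Finset.sum_comm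
      have h7 : (∑ x : Fin m, ∑ y : Fin m, if c.E1 y x then 1 else 0) =
        ∑ x : Fin m, ∑ y : Fin m, if c.E1 x y then 1 else 0 := Finset.sum_comm
      rw [h6, h7]
    have h6 : (∑ i : Fin n, ∑ j : Fin n, if i = j then 1 else 0) = n := by simp
    have h7 := sum_succ n
    rw [h5, h6]
    have h8 : n * e1 ≤ ((∑ i : Fin n, ∑ j : Fin n, if (i : ℕ) + 1 = j then 1 else 0) + 1) * e1 :=
      Nat.mul_le_mul_right _ (by convert h7)
    nlinarith
  rw [hT, h1, h2, hce]
  nlinarith

end SD

open SD in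
theorem stmt_SD : Stmt_SD := by
  classical
  intro a b r m c hex hMR
  obtain ⟨hm, hce⟩ := hex
  set ρ : ℝ := (a : ℝ) / ((b : ℝ) + 1) with hρ
  have hb : (0 : ℝ) < (b : ℝ) + 1 := by positivity
  have hρ0 : 0 ≤ ρ := by positivity
  have hceR : (c.ce : ℝ) = 2 * ρ * m := by
    have h1 : ((b : ℝ) + 1) * c.ce = 2 * a * m := by exact_mod_cast hce
    rw [hρ]
    field_simp
    linarith
  refine ⟨r + 2 * m, fun ε hε => ?_⟩
  set e1 := (@Finset.filter (Fin m × Fin m) (fun p => c.E1 p.1 p.2) (Classical.decPred _) Finset.univ).card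
    with he1
  obtain ⟨n, hn⟩ := exists_nat_gt ((ρ * r + e1) / ε)
  have hn' : ρ * r + e1 < ε * n := by
    rw [div_lt_iff₀ hε] at hn
    linarith
  have hn0 : 0 < n := by
    rcases Nat.eq_zero_or_pos n with h | h
    · rw [h] at hn'
      simp only [Nat.cast_zero, mul_zero] at hn'
      have : 0 ≤ ρ * r + (e1 : ℝ) := by positivity
      linarith
    · exact h
  set Φ : Fin r ⊕ Fin n × Fin m ≃ Fin (r + n * m) :=
    (Equiv.sumCongr (Equiv.refl _) finProdFinEquiv).trans finSumFinEquiv with hΦ
  have hΦl : ∀ x : Fin r, (Φ (.inl x) : ℕ) = x := fun x => by simp [hΦ]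
  have hΦr : ∀ p : Fin n × Fin m, (Φ (.inr p) : ℕ) = r + (p.2 + m * p.1) := fun p => by
    simp [hΦ, finProdFinEquiv]
  set G' : SimpleGraph (Fin (r + n * m)) := (c.G n).comap Φ.symm with hG'
  refine ⟨r + n * m, ?_, G', ?_, ?_, ?_⟩
  · have : 1 ≤ n * m := Nat.mul_pos hn0 hm
    omega
  · refine ⟨Equiv.refl _, fun v => Finset.univ.filter fun u => u < v ∧
      ((u : ℕ) < r ∨ ((v : ℕ) - r) / m ≤ ((u : ℕ) - r) / m + 1), ?_, ?_, ?_, ?_⟩
    · intro v u hu
      exact (Finset.mem_filter.mp hu).2.1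
    · intro v
      have h1 : (Finset.univ.filter fun u : Fin (r + n * m) => u < v ∧
          ((u : ℕ) < r ∨ ((v : ℕ) - r) / m ≤ ((u : ℕ) - r) / m + 1)).card ≤
          (Finset.range r ∪ Finset.Ico (r + m * ((v - r) / m - 1)) (r + m * ((v - r) / m - 1) + 2 * m)).card := by
        refine Finset.card_le_card_of_injOn (fun u => (u : ℕ)) ?_ (fun u _ u' _ h => Fin.ext h)
        intro u hu
        rw [Finset.mem_coe, Finset.mem_filter] at hu
        rw [Finset.mem_coe, Finset.mem_union, Finset.mem_range, Finset.mem_Ico]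
        obtain ⟨-, h1, h2⟩ := hu
        by_cases hur : (u : ℕ) < r
        · exact Or.inl hur
        · right
          have h3 := h2.resolve_left hur
          have h1' : (u : ℕ) < v := h1
          have h4 : ((u : ℕ) - r) / m ≤ ((v : ℕ) - r) / m := Nat.div_le_div_right (by omega)
          have h5 := Nat.div_add_mod ((u : ℕ) - r) m
          have h6 := Nat.mod_lt ((u : ℕ) - r) hm
          change r + m * (((v : ℕ) - r) / m - 1) ≤ (u : ℕ) ∧
            (u : ℕ) < r + m * (((v : ℕ) - r) / m - 1) + 2 * m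
          generalize ((v : ℕ) - r) / m = i at h3 h4 ⊢
          generalize ((u : ℕ) - r) / m = d at h3 h4 h5
          have h7 : i - 1 ≤ d := by omega
          have h8 : m * (i - 1) ≤ m * d := Nat.mul_le_mul_left m h7
          have h9 : d ≤ (i - 1) + 1 := by omega
          have h10 : m * d ≤ m * (i - 1) + m := by
            have := Nat.mul_le_mul_left m h9
            rwa [Nat.mul_add, mul_one] at this
          constructor <;> omega
      refine h1.trans ((Finset.card_union_le _ _).trans ?_)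
      rw [Finset.card_range, Nat.card_Ico]
      omega
    · intro v u hu u' hu' huu
      rw [Finset.mem_filter] at hu hu' ⊢
      refine ⟨Finset.mem_univ _, huu, ?_⟩
      rcases hu'.2.2 with h | h
      · exact Or.inl h
      · right
        have h1 : (u : ℕ) < v := hu.2.1
        exact (Nat.div_le_div_right (by omega)).trans h
    · intro u v huv hadj
      rw [Finset.mem_filter]
      refine ⟨Finset.mem_univ _, huv, ?_⟩
      have huv' : (u : ℕ) < v := huv
      have h1 : (c.G n).Adj (Φ.symm u) (Φ.symm v) := hadj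
      obtain ⟨x, rfl⟩ : ∃ x, Φ x = u := ⟨Φ.symm u, by simp⟩
      obtain ⟨y, rfl⟩ : ∃ y, Φ y = v := ⟨Φ.symm v, by simp⟩
      rw [Equiv.symm_apply_apply, Equiv.symm_apply_apply] at h1
      rcases x with x | p
      · left; rw [hΦl]; exact x.2
      · rcases y with y | q
        · rw [hΦl, hΦr] at huv'
          have := y.2
          omega
        · right
          rw [hΦr, hΦr]
          have h2 : ∀ p : Fin n × Fin m, (r + ((p.2 : ℕ) + m * p.1) - r) / m = p.1 := by
            intro p
            rw [Nat.add_sub_cancel_left, Nat.add_mul_div_left _ _ hm, Nat.div_eq_of_lt p.2.2, zero_add]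
          rw [h2, h2]
          rcases h1 with ⟨h3, -⟩ | ⟨h3, -⟩ | ⟨h3, -⟩
          · rw [h3]; omega
          · omega
          · omega
  · exact (hMR n).minor (minor_of_inj Φ.symm Φ.symm.injective fun i j h => h)
  · have h1 : e2 G' = e2 (c.G n) := e2_congr (H := G') (G := c.G n) Φ.symm fun i j => Iff.rfl
    have h2 := e2_chain c n
    rw [← he1] at h2
    have h3 : (n : ℝ) * c.ce ≤ e2 (c.G n) + 2 * e1 := by exact_mod_cast h2
    rw [hceR] at h3
    rw [h1]
    push_cast
    have h4 : (0 : ℝ) ≤ ε * r := by positivity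
    have h5 : (1 : ℝ) ≤ m := by exact_mod_cast hm
    have h6 : ε * n ≤ ε * (n * m) := by
      have : (n : ℝ) ≤ n * m := le_mul_of_one_le_right (by positivity) h5
      exact mul_le_mul_of_nonneg_left this hε.le
    nlinarith

end Pool.Agent.Work.MP_216d61_lc
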