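import Pool.Agent.Work.MP_216d61_lc.Interface2

/-!
# MP_216d61_lc, block CH: pumping periodic chains
-/

set_option autoImplicit false

namespace Pool.Agent.Work.MP_216d61_lc

open Set Relation

namespace CH

variable {r m : ℕ} (c : Chn (Fin r) (Fin m))

/-- the first `i` periods, without the roots -/
def HH (i : ℕ) : SimpleGraph (Fin i × Fin m) := (c.G i).comap Sum.inr

/-- attachment of the first `i` periods to the roots and to the next period -/
def AA (i : ℕ) : Fin r ⊕ Fin m → Fin i × Fin m → Prop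
  | .inl a => fun q => c.A a q.2
  | .inr x => fun q => (q.1 : ℕ) + 1 = i ∧ c.E1 q.2 x

/-- the labels of the rest of the chain -/
def ll (N : ℕ) (hN : 0 < N) : Fin r ⊕ Fin m → Fin r ⊕ Fin N × Fin m
  | .inl a => .inl a
  | .inr x => .inr (⟨0, hN⟩, x)

theorem ll_inj (N : ℕ) (hN : 0 < N) : Function.Injective (ll (r := r) (m := m) N hN) := by
  rintro (a | x) (b | y) h
  · exact congrArg _ (Sum.inl.inj h)
  · cases h
  · cases h
  · have := Sum.inr.inj h
    exact congrArg _ (Prod.ext_iff.mp this).2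

/-- the identification of the vertices -/
def gg (i N : ℕ) : (Fin r ⊕ Fin N × Fin m) ⊕ (Fin i × Fin m) → Fin r ⊕ Fin (i + N) × Fin m
  | .inl (.inl a) => .inl a
  | .inl (.inr q) => .inr (⟨i + q.1, by omega⟩, q.2)
  | .inr q => .inr (⟨q.1, by omega⟩, q.2)

theorem gg_inj (i N : ℕ) : Function.Injective (gg (r := r) (m := m) i N) := by
  rintro ((a | ⟨k, x⟩) | ⟨k, x⟩) ((b | ⟨l, y⟩) | ⟨l, y⟩) h <;> simp only [gg] at h
  · rw [Sum.inl.inj h]
  · cases h
  · cases h
  · cases h
  · have h1 := Prod.ext_iff.mp (Sum.inr.inj h)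
    have h2 : (i + k : ℕ) = i + l := congrArg Fin.val h1.1
    have h3 : x = y := h1.2
    have h4 : k = l := Fin.ext (by omega)
    rw [h3, h4]
  · have h1 := Prod.ext_iff.mp (Sum.inr.inj h)
    have h2 : (i + k : ℕ) = l := congrArg Fin.val h1.1
    omega
  · cases h
  · have h1 := Prod.ext_iff.mp (Sum.inr.inj h)
    have h2 : (k : ℕ) = i + l := congrArg Fin.val h1.1
    omega
  · have h1 := Prod.ext_iff.mp (Sum.inr.inj h)
    have h2 : (k : ℕ) = l := by simpa using h1.1
    have h3 : x = y := h1.2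
    have h4 : k = l := Fin.ext h2
    rw [h3, h4]

theorem gg_surj (i N : ℕ) : Function.Surjective (gg (r := r) (m := m) i N) := by
  rintro (a | ⟨k, x⟩)
  · exact ⟨.inl (.inl a), rfl⟩
  · by_cases hk : (k : ℕ) < i
    · exact ⟨.inr (⟨k, hk⟩, x), rfl⟩
    · refine ⟨.inl (.inr (⟨k - i, by omega⟩, x)), ?_⟩
      simp only [gg]
      congr 2
      apply Fin.ext
      simp only
      omega

theorem gg_adj (i N : ℕ) (hN : 0 < N) (u v : (Fin r ⊕ Fin N × Fin m) ⊕ (Fin i × Fin m)) :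
    (Glue (c.G N) (ll N hN) (HH c i) (AA c i)).Adj u v ↔
      (c.G (i + N)).Adj (gg i N u) (gg i N v) := by
  have key : ∀ (u : Fin r ⊕ Fin N × Fin m) (v : Fin i × Fin m),
      (Glue (c.G N) (ll N hN) (HH c i) (AA c i)).Adj (.inl u) (.inr v) ↔
      (c.G (i + N)).Adj (gg i N (.inl u)) (gg i N (.inr v)) := by
    rintro (a | ⟨k, x⟩) ⟨l, y⟩
    · constructor
      · rintro ⟨(b | z), hb, hA⟩
        · obtain rfl := Sum.inl.inj hb
          exact hA
        · cases hb
      · intro h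
        exact ⟨.inl a, rfl, h⟩
    · constructor
      · rintro ⟨(b | z), hb, hA⟩
        · cases hb
        · have h1 := Prod.ext_iff.mp (Sum.inr.inj hb)
          have h2 : (⟨0, hN⟩ : Fin N) = k := h1.1
          have h3 : z = x := h1.2
          subst h2 h3
          refine Or.inr (Or.inr ⟨?_, hA.2⟩)
          have := hA.1
          simpa [gg] using this
      · rintro (⟨h1, -⟩ | ⟨h1, -⟩ | ⟨h1, h2⟩)
        · have h3 : (i + k : ℕ) = l := congrArg Fin.val h1
          omega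
        · have h3 : (i + k : ℕ) + 1 = l := h1
          omega
        · have h3 : (l : ℕ) + 1 = i + k := h1
          have h4 : k = ⟨0, hN⟩ := Fin.ext (by
            have := l.2
            show (k : ℕ) = 0
            omega)
          subst h4
          refine ⟨.inr x, rfl, ?_, h2⟩
          simpa using h3
  rcases u with (a | ⟨k, x⟩) | u
  · rcases v with (b | ⟨l, y⟩) | v
    · exact Iff.rfl
    · exact Iff.rfl
    · exact key _ _
  · rcases v with (b | ⟨l, y⟩) | v
    · exact Iff.rfl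
    · show ((k = l ∧ c.E0.Adj x y) ∨ ((k : ℕ) + 1 = l ∧ c.E1 x y) ∨ ((l : ℕ) + 1 = k ∧ c.E1 y x)) ↔
        (((⟨i + k, _⟩ : Fin (i + N)) = ⟨i + l, _⟩ ∧ c.E0.Adj x y) ∨
          ((i + k : ℕ) + 1 = i + l ∧ c.E1 x y) ∨ ((i + l : ℕ) + 1 = i + k ∧ c.E1 y x))
      have h1 : (i + k : ℕ) + 1 = i + l ↔ (k : ℕ) + 1 = l := by omega
      have h2 : (i + l : ℕ) + 1 = i + k ↔ (l : ℕ) + 1 = k := by omega
      have h3 : (⟨i + k, by omega⟩ : Fin (i + N)) = ⟨i + l, by omega⟩ ↔ k = l := by
        rw [Fin.mk.injEq, Fin.ext_iff]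
        omega
      rw [h1, h2, h3]
    · exact key _ _
  · rcases v with v | v
    · rw [(Glue (c.G N) (ll N hN) (HH c i) (AA c i)).adj_comm, (c.G (i + N)).adj_comm]
      exact key _ _
    · obtain ⟨k, x⟩ := u
      obtain ⟨l, y⟩ := v
      show ((k = l ∧ c.E0.Adj x y) ∨ ((k : ℕ) + 1 = l ∧ c.E1 x y) ∨ ((l : ℕ) + 1 = k ∧ c.E1 y x)) ↔
        (((⟨k, _⟩ : Fin (i + N)) = ⟨l, _⟩ ∧ c.E0.Adj x y) ∨
          ((k : ℕ) + 1 = l ∧ c.E1 x y) ∨ ((l : ℕ) + 1 = k ∧ c.E1 y x))
      rw [Fin.mk.injEq, Fin.ext_iff]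

theorem MR_glue (ρ : ℝ) (i N : ℕ) (hN : 0 < N) :
    MR ρ (c.G (i + N)) ↔ MR ρ (Glue (c.G N) (ll N hN) (HH c i) (AA c i)) := by
  set e := Equiv.ofBijective (gg (r := r) (m := m) i N) ⟨gg_inj i N, gg_surj i N⟩ with he
  constructor
  · intro h
    exact h.minor (minor_of_inj (gg i N) (gg_inj i N) fun u v h => (gg_adj c i N hN u v).1 h)
  · intro h
    refine h.minor (minor_of_inj e.symm e.symm.injective fun u v h => ?_)
    rw [gg_adj]
    have h1 : ∀ u, gg i N (e.symm u) = u := fun u => e.apply_symm_apply u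
    rw [h1, h1]
    exact h

theorem MR_mono (ρ : ℝ) {n n' : ℕ} (h : n ≤ n') (hMR : MR ρ (c.G n')) : MR ρ (c.G n) := by
  refine hMR.minor (minor_of_inj (fun u => match u with
    | .inl a => .inl a
    | .inr q => .inr (Fin.castLE h q.1, q.2)) ?_ ?_)
  · rintro (a | ⟨k, x⟩) (b | ⟨l, y⟩) h1
    · simpa using h1
    · cases h1
    · cases h1
    · have h2 := Prod.ext_iff.mp (Sum.inr.inj h1)
      have h3 : (k : ℕ) = l := by simpa using congrArg Fin.val h2.1
      have h4 : x = y := h2.2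
      rw [h4, Fin.ext h3]
  · rintro (a | ⟨k, x⟩) (b | ⟨l, y⟩) h1
    · exact h1
    · exact h1
    · exact h1
    · rcases h1 with ⟨h1, h2⟩ | h1 | h1
      · exact Or.inl ⟨congrArg (Fin.castLE h) h1, h2⟩
      · exact Or.inr (Or.inl h1)
      · exact Or.inr (Or.inr h1)

end CH

open CH in
theorem stmt_CH (hFI : Stmt_FI) : Stmt_CH := by
  intro a b r m c hMR
  obtain ⟨i, j, hij, hj, hE⟩ := hFI a b (Fin r ⊕ Fin m) (fun i => Fin i × Fin m) (HH c) (AA c)
  have hcard : Fintype.card (Fin r ⊕ Fin m) = r + m := by simp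
  rw [hcard] at hj
  intro n
  induction n using Nat.strong_induction_on with
  | _ n ih =>
    by_cases hn : n ≤ NB (r + m) a + 2
    · exact MR_mono c _ hn hMR
    · have hN : 0 < n - j := by omega
      have h1 := ih (i + (n - j)) (by omega)
      have h2 := (MR_glue c _ i (n - j) hN).1 h1
      have h3 := (hE _ (c.G (n - j)) (ll (n - j) hN) (ll_inj _ hN)).1 h2
      have h4 := (MR_glue c _ j (n - j) hN).2 h3
      have h5 : j + (n - j) = n := by omega
      rwa [h5] at h4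

end Pool.Agent.Work.MP_216d61_lc
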