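import Pool.Agent.Work.MP_216d61_lc.Interface2

/-!
# MP_216d61_lc, block ET: from an elimination ordering to a term
-/

set_option autoImplicit false

namespace Pool.Agent.Work.MP_216d61_lc

open Set Relation

namespace ET

/-! ### The ancestor relation of a chordal elimination ordering -/

section anc

variable {n : ℕ} {N : Fin n → Finset (Fin n)}

/-- ancestors -/
def Anc (N : Fin n → Finset (Fin n)) : Fin n → Fin n → Prop := TransGen fun u v => u ∈ N v

theorem Anc.lt (h1 : ∀ v, ∀ u ∈ N v, u < v) {u v : Fin n} (h : Anc N u v) : u < v := by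
  induction h with
  | single h => exact h1 _ _ h
  | tail _ h ih => exact ih.trans (h1 _ _ h)

theorem mem_of_anc (h1 : ∀ v, ∀ u ∈ N v, u < v)
    (h3 : ∀ v, ∀ u ∈ N v, ∀ u' ∈ N v, u' < u → u' ∈ N u) {j x : Fin n} (h : Anc N j x) :
    ∀ u ∈ N x, u < j → u ∈ N j := by
  induction h with
  | single h => intro u hu huj; exact h3 _ _ h _ hu huj
  | tail hjz hz ih =>
    intro u hu huj
    exact ih u (h3 _ _ hz _ hu (huj.trans (Anc.lt h1 hjz))) huj

theorem anc_of_mem
    (h3 : ∀ v, ∀ u ∈ N v, ∀ u' ∈ N v, u' < u → u' ∈ N u) {j x : Fin n} (h : Anc N j x) :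
    ∀ y ∈ N x, j < y → Anc N j y := by
  induction h with
  | single h => intro y hy hjy; exact TransGen.single (h3 _ _ hy _ h hjy)
  | @tail z x hjz hz ih =>
    intro y hy hjy
    rcases lt_trichotomy y z with hyz | hyz | hyz
    · exact ih y (h3 _ _ hz _ hy hyz) hjy
    · rw [hyz]; exact hjz
    · exact TransGen.tail hjz (h3 _ _ hy _ hz hyz)

end anc

/-- colouring of the chordal graph -/
theorem exists_col {w n : ℕ} {N : Fin n → Finset (Fin n)} (h1 : ∀ v, ∀ u ∈ N v, u < v)
    (h2 : ∀ v, (N v).card ≤ w) : ∃ col : Fin n → Fin (w + 1), ∀ v, ∀ u ∈ N v, col u ≠ col v := by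
  classical
  have key : ∀ k : ℕ, ∃ col : Fin n → Fin (w + 1), ∀ v : Fin n, (v : ℕ) < k →
      ∀ u ∈ N v, col u ≠ col v := by
    intro k
    induction k with
    | zero => exact ⟨fun _ => 0, fun v hv => absurd hv (by omega)⟩
    | succ k ih =>
      obtain ⟨col, hcol⟩ := ih
      by_cases hk : k < n
      · obtain ⟨a, ha⟩ : ∃ a : Fin (w + 1), a ∉ (N ⟨k, hk⟩).image col := by
          by_contra hcon
          push Not at hcon
          have h3 : (Finset.univ : Finset (Fin (w + 1))) ⊆ (N ⟨k, hk⟩).image col :=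
            fun a _ => hcon a
          have h4 := (Finset.card_le_card h3).trans Finset.card_image_le
          rw [Finset.card_univ, Fintype.card_fin] at h4
          have := h2 ⟨k, hk⟩
          omega
        refine ⟨Function.update col ⟨k, hk⟩ a, fun v hv u hu => ?_⟩
        have huv := h1 v u hu
        have hu' : u ≠ ⟨k, hk⟩ := by
          rintro rfl
          have : k < (v : ℕ) := huv
          omega
        rw [Function.update_of_ne hu']
        by_cases hvk : v = ⟨k, hk⟩
        · rw [hvk, Function.update_self]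
          intro h
          apply ha
          rw [← h]
          rw [hvk] at hu
          exact Finset.mem_image_of_mem col hu
        · rw [Function.update_of_ne hvk]
          refine hcol v ?_ u hu
          have : (v : ℕ) ≠ k := fun h => hvk (Fin.ext h)
          omega
      · refine ⟨col, fun v _ => hcol v (by omega)⟩
  obtain ⟨col, h⟩ := key n
  exact ⟨col, fun v => h v v.2⟩

open Classical in
theorem main {w n : ℕ} {G : SimpleGraph (Fin n)} {N : Fin n → Finset (Fin n)}
    (h1 : ∀ v, ∀ u ∈ N v, u < v)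
    (h3 : ∀ v, ∀ u ∈ N v, ∀ u' ∈ N v, u' < u → u' ∈ N u)
    (h4 : ∀ u v, u < v → G.Adj u v → u ∈ N v)
    {col : Fin n → Fin (w + 1)} (hcol : ∀ v, ∀ u ∈ N v, col u ≠ col v) (m : ℕ) :
    ∀ (X : Finset (Fin n)) (lam : Fin (w + 1) → Option (Fin n)), X.card ≤ m →
      (∀ b u, lam b = some u → col u = b) → (∀ b u, lam b = some u → ∀ x ∈ X, u < x) →
      (∀ x ∈ X, ∀ u ∈ N x, u ∈ X ∨ lam (col u) = some u) →
      ∃ (t : Tm (w + 1)) (φ : t.I → Fin n), Function.Injective φ ∧ (∀ x, x ∈ X ↔ ∃ c, φ c = x) ∧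
        (∀ c d, t.R c d ↔ G.Adj (φ c) (φ d)) ∧
        (∀ b c, t.A b c ↔ ∃ u, lam b = some u ∧ G.Adj u (φ c)) ∧ t.size = X.card ∧
        t.edg = ∑ x ∈ X, ((N x).filter fun u => G.Adj u x).card := by
  induction m with
  | zero =>
    intro X lam hX _ _ _
    have hX0 : X = ∅ := Finset.card_eq_zero.mp (by omega)
    refine ⟨.leaf, fun c => c.elim, fun c => c.elim, ?_, fun c => c.elim, fun _ c => c.elim, ?_, ?_⟩
    · intro x
      rw [hX0]
      exact ⟨fun h => absurd h (by simp), fun ⟨c, _⟩ => c.elim⟩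
    · rw [hX0]; rfl
    · rw [hX0]; rfl
  | succ m ih =>
    intro X lam hX hl1 hl2 hl3
    by_cases hne : X.Nonempty
    swap
    · have hX0 : X = ∅ := Finset.not_nonempty_iff_eq_empty.mp hne
      exact ih X lam (by rw [hX0]; simp) hl1 hl2 hl3
    set j := X.min' hne with hj
    have hjX : j ∈ X := X.min'_mem hne
    have hjmin : ∀ x ∈ X, j ≤ x := fun x hx => X.min'_le x hx
    set X₁ := (X.erase j).filter fun x => Anc N j x with hX₁
    set X₂ := (X.erase j).filter fun x => ¬ Anc N j x with hX₂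
    have hm1 : ∀ x, x ∈ X₁ ↔ x ∈ X ∧ x ≠ j ∧ Anc N j x := by
      intro x; rw [hX₁, Finset.mem_filter, Finset.mem_erase]; tauto
    have hm2 : ∀ x, x ∈ X₂ ↔ x ∈ X ∧ x ≠ j ∧ ¬ Anc N j x := by
      intro x; rw [hX₂, Finset.mem_filter, Finset.mem_erase]; tauto
    have hcard : X₁.card + X₂.card + 1 = X.card := by
      rw [hX₁, hX₂, Finset.card_filter_add_card_filter_not, Finset.card_erase_add_one hjX]
    have hlt : ∀ x ∈ X, x ≠ j → j < x := fun x hx hne => lt_of_le_of_ne (hjmin x hx) hne.symm
    -- members of `N x` which are labels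
    have hNj : ∀ u ∈ N j, lam (col u) = some u := by
      intro u hu
      rcases hl3 j hjX u hu with h | h
      · exact absurd (h1 j u hu) (not_lt.mpr (hjmin u h))
      · exact h
    obtain ⟨t₁, φ₁, hφ₁, hr₁, hR₁, hA₁, hs₁, he₁⟩ := ih X₁ (Function.update lam (col j) (some j))
      (by omega) (by
        intro b u h
        by_cases hb : b = col j
        · rw [hb, Function.update_self] at h
          rw [hb, Option.some.inj h]
        · rw [Function.update_of_ne hb] at h
          exact hl1 b u h) (by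
        intro b u h x hx
        rw [hm1] at hx
        by_cases hb : b = col j
        · rw [hb, Function.update_self] at h
          rw [← Option.some.inj h]
          exact hlt x hx.1 hx.2.1
        · rw [Function.update_of_ne hb] at h
          exact hl2 b u h x hx.1) (by
        intro x hx u hu
        rw [hm1] at hx
        rcases hl3 x hx.1 u hu with h | h
        · by_cases huj : u = j
          · right; rw [huj, Function.update_self]
          · left
            rw [hm1]
            exact ⟨h, huj, anc_of_mem h3 hx.2.2 u hu (hlt u h huj)⟩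
        · right
          have huj := hl2 _ _ h j hjX
          have h5 := mem_of_anc h1 h3 hx.2.2 u hu huj
          rw [Function.update_of_ne (hcol j u h5)]
          exact h)
    obtain ⟨t₂, φ₂, hφ₂, hr₂, hR₂, hA₂, hs₂, he₂⟩ := ih X₂ lam
      (by omega) hl1 (fun b u h x hx => hl2 b u h x ((hm2 x).mp hx).1) (by
        intro x hx u hu
        rw [hm2] at hx
        rcases hl3 x hx.1 u hu with h | h
        · left
          have huj : u ≠ j := by
            rintro rfl
            exact hx.2.2 (TransGen.single hu)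
          rw [hm2]
          refine ⟨h, huj, fun h5 => hx.2.2 (TransGen.tail h5 hu)⟩
        · exact Or.inr h)
    set E : Finset (Fin (w + 1)) := ((N j).filter fun u => G.Adj u j).image col with hE
    have hcolinj : ∀ u ∈ N j, ∀ u' ∈ N j, col u = col u' → u = u' := by
      intro u hu u' hu' h
      rcases lt_trichotomy u u' with h5 | h5 | h5
      · exact absurd h (hcol u' u (h3 _ _ hu' _ hu h5))
      · exact h5
      · exact absurd h.symm (hcol u u' (h3 _ _ hu _ hu' h5))
    have hjE : col j ∉ E := by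
      intro h
      rw [hE, Finset.mem_image] at h
      obtain ⟨u, hu, h⟩ := h
      exact hcol j u (Finset.mem_filter.mp hu).1 h
    have hp1 : ∀ c, φ₁ c ∈ X ∧ φ₁ c ≠ j ∧ Anc N j (φ₁ c) := fun c => (hm1 _).mp ((hr₁ _).mpr ⟨c, rfl⟩)
    have hp2 : ∀ c, φ₂ c ∈ X ∧ φ₂ c ≠ j ∧ ¬ Anc N j (φ₂ c) := fun c => (hm2 _).mp ((hr₂ _).mpr ⟨c, rfl⟩)
    -- no edges between the two parts
    have hno12 : ∀ c d, ¬ G.Adj (φ₁ c) (φ₂ d) := by
      intro c d h
      obtain ⟨a1, a2, a3⟩ := hp1 c
      obtain ⟨b1, b2, b3⟩ := hp2 d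
      rcases lt_trichotomy (φ₁ c) (φ₂ d) with h5 | h5 | h5
      · exact b3 (TransGen.tail a3 (h4 _ _ h5 h))
      · rw [h5] at h; exact G.loopless.irrefl _ h
      · exact b3 (anc_of_mem h3 a3 _ (h4 _ _ h5 h.symm) (hlt _ b1 b2))
    have hnoj2 : ∀ d, ¬ G.Adj j (φ₂ d) := by
      intro d h
      obtain ⟨b1, b2, b3⟩ := hp2 d
      exact b3 (TransGen.single (h4 _ _ (hlt _ b1 b2) h))
    have hAj : ∀ c, t₁.A (col j) c ↔ G.Adj j (φ₁ c) := by
      intro c
      rw [hA₁, Function.update_self]
      constructor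
      · rintro ⟨u, hu, h⟩
        rw [Option.some.inj hu]; exact h
      · intro h; exact ⟨j, rfl, h⟩
    refine ⟨.add (col j) E t₁ t₂, fun c => match c with
      | .inl _ => j
      | .inr (.inl c) => φ₁ c
      | .inr (.inr c) => φ₂ c, ?_, ?_, ?_, ?_, ?_, ?_⟩
    · rintro (c | c | c) (d | d | d) h
      · rfl
      · exact absurd (show j = φ₁ d from h).symm (hp1 d).2.1
      · exact absurd (show j = φ₂ d from h).symm (hp2 d).2.1
      · exact absurd (show φ₁ c = j from h) (hp1 c).2.1
      · have : c = d := hφ₁ h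
        rw [this]
      · have h5 : φ₁ c = φ₂ d := h
        exact absurd (h5 ▸ (hp1 c).2.2) (hp2 d).2.2
      · exact absurd (show φ₂ c = j from h) (hp2 c).2.1
      · have h5 : φ₂ c = φ₁ d := h
        exact absurd (h5 ▸ (hp1 d).2.2) (hp2 c).2.2
      · have : c = d := hφ₂ h
        rw [this]
    · intro x
      constructor
      · intro hx
        by_cases hxj : x = j
        · exact ⟨.inl (), hxj.symm⟩
        · by_cases hA : Anc N j x
          · obtain ⟨c, hc⟩ := (hr₁ x).mp ((hm1 x).mpr ⟨hx, hxj, hA⟩)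
            exact ⟨.inr (.inl c), hc⟩
          · obtain ⟨c, hc⟩ := (hr₂ x).mp ((hm2 x).mpr ⟨hx, hxj, hA⟩)
            exact ⟨.inr (.inr c), hc⟩
      · rintro ⟨c | c | c, rfl⟩
        · exact hjX
        · exact (hp1 c).1
        · exact (hp2 c).1
    · rintro (c | c | c) (d | d | d)
      · exact ⟨fun h => h.elim, fun h => G.loopless.irrefl _ h⟩
      · exact hAj d
      · exact ⟨fun h => h.elim, fun h => hnoj2 d h⟩
      · exact (hAj c).trans ⟨fun h => h.symm, fun h => h.symm⟩
      · exact hR₁ c d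
      · exact ⟨fun h => h.elim, fun h => hno12 c d h⟩
      · exact ⟨fun h => h.elim, fun h => hnoj2 c h.symm⟩
      · exact ⟨fun h => h.elim, fun h => hno12 d c h.symm⟩
      · exact hR₂ c d
    · rintro b (c | c | c)
      · show (b ∈ E ∧ b ≠ col j) ↔ ∃ u, lam b = some u ∧ G.Adj u j
        constructor
        · rintro ⟨hb, -⟩
          rw [hE, Finset.mem_image] at hb
          obtain ⟨u, hu, rfl⟩ := hb
          rw [Finset.mem_filter] at hu
          exact ⟨u, hNj u hu.1, hu.2⟩
        · rintro ⟨u, hu, h⟩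
          have h5 := h4 u j (hl2 b u hu j hjX) h
          have h6 := hl1 b u hu
          refine ⟨?_, ?_⟩
          · rw [hE, Finset.mem_image]
            exact ⟨u, Finset.mem_filter.mpr ⟨h5, h⟩, h6⟩
          · rw [← h6]; exact hcol j u h5
      · show (b ≠ col j ∧ t₁.A b c) ↔ ∃ u, lam b = some u ∧ G.Adj u (φ₁ c)
        rw [hA₁]
        constructor
        · rintro ⟨hb, u, hu, h⟩
          rw [Function.update_of_ne hb] at hu
          exact ⟨u, hu, h⟩
        · rintro ⟨u, hu, h⟩
          have hb : b ≠ col j := by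
            intro hb
            have h5 := hl2 b u hu _ (hp1 c).1
            have h6 := mem_of_anc h1 h3 (hp1 c).2.2 u (h4 _ _ h5 h) (hl2 b u hu j hjX)
            exact hcol j u h6 ((hl1 b u hu).trans hb)
          exact ⟨hb, u, by rw [Function.update_of_ne hb]; exact hu, h⟩
      · exact hA₂ b c
    · show 1 + (t₁.size + t₂.size) = X.card
      omega
    · show (E.erase (col j)).card + (t₁.edg + t₂.edg) = _
      rw [Finset.erase_eq_of_notMem hjE, he₁, he₂, hE, Finset.card_image_of_injOn (by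
        intro u hu u' hu' h
        exact hcolinj u (Finset.mem_filter.mp hu).1 u' (Finset.mem_filter.mp hu').1 h),
        hX₁, hX₂, Finset.sum_filter_add_sum_filter_not]
      exact Finset.add_sum_erase X (fun x => ((N x).filter fun u => G.Adj u x).card) hjX

/-- adding isolated vertices -/
theorem MR_isolated {ρ : ℝ} (hρ : 0 ≤ ρ) {R C : Type} {H : SimpleGraph C} (h : MR ρ H) :
    MR ρ (Glue (⊥ : SimpleGraph R) id H (fun _ _ => False)) := by
  classical
  intro W _ K hK
  obtain ⟨f, hf⟩ := minor_iff.1 hK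
  set L := Glue (⊥ : SimpleGraph R) id H (fun _ _ => False) with hL
  have hiso : ∀ (r : R) (y : R ⊕ C), ¬ L.Adj (.inl r) y := by
    rintro r (y | y) hy
    · exact hy
    · obtain ⟨a, -, ha⟩ := hy
      exact ha
  have hsing : ∀ w r, Sum.inl r ∈ f w → ∀ y ∈ f w, y = Sum.inl r := by
    intro w r hr y hy
    have h1 := (hf.conn w).2 _ hr _ hy
    rcases ReflTransGen.cases_head h1 with h2 | ⟨z, hz, -⟩
    · exact h2.symm
    · exact absurd hz.1 (hiso r z)
  let P : W → Prop := fun w => ∃ r, Sum.inl r ∈ f w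
  have hP : ∀ w w', K.Adj w w' → ¬ P w := by
    rintro w w' hadj ⟨r, hr⟩
    obtain ⟨x, hx, y, hy, hxy⟩ := hf.adj _ _ hadj
    rw [hsing w r hr x hx] at hxy
    exact hiso r y hxy
  have hC : ∀ w : {w // ¬ P w}, ∀ x ∈ f w.1, ∃ c, x = Sum.inr c := by
    rintro ⟨w, hw⟩ (x | x) hx
    · exact absurd ⟨x, hx⟩ hw
    · exact ⟨x, rfl⟩
  have hmin : Minor (K.comap (fun w : {w // ¬ P w} => (w : W))) H := by
    refine Model.minor (f := fun w => {c | Sum.inr c ∈ f w.1}) ⟨?_, ?_, ?_⟩
    · intro w w' hne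
      rw [disjoint_left]
      intro c hc hc'
      exact hne (Subtype.ext (hf.eq_of_mem hc hc'))
    · intro w
      obtain ⟨x0, hx0⟩ := (hf.conn w.1).1
      obtain ⟨c0, rfl⟩ := hC w _ hx0
      refine ⟨⟨c0, hx0⟩, ?_⟩
      intro c hc d hd
      have h1 := (hf.conn w.1).2 _ hc _ hd
      have key : ∀ y, ReflTransGen (fun a b => L.Adj a b ∧ a ∈ f w.1 ∧ b ∈ f w.1)
          (Sum.inr c) y → ∀ d, y = Sum.inr d →
          ReflTransGen (fun a b => H.Adj a b ∧ Sum.inr a ∈ f w.1 ∧ Sum.inr b ∈ f w.1) c d := by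
        intro y hy
        induction hy with
        | refl =>
          intro d hd
          have h2 : c = d := Sum.inr_injective hd
          subst h2
          exact ReflTransGen.refl
        | @tail y z _ hst ih =>
          intro d hd
          obtain ⟨e, rfl⟩ := hC w _ hst.2.1
          refine (ih e rfl).tail ?_
          subst hd
          exact ⟨hst.1, hst.2.1, hst.2.2⟩
      exact key _ h1 d rfl
    · intro w w' hadj
      obtain ⟨x, hx, y, hy, hxy⟩ := hf.adj _ _ hadj
      obtain ⟨c, rfl⟩ := hC w _ hx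
      obtain ⟨d, rfl⟩ := hC w' _ hy
      exact ⟨c, hx, d, hy, hxy⟩
  have h2 := h _ _ hmin
  have h3 : e2 K ≤ e2 (K.comap (fun w : {w // ¬ P w} => (w : W))) := by
    rw [e2, e2]
    refine Finset.card_le_card_of_surjOn (fun p => ((p.1 : W), (p.2 : W))) ?_
    rintro ⟨x, y⟩ hxy
    rw [Finset.mem_coe, Finset.mem_filter] at hxy
    have h4 : K.Adj x y := hxy.2
    refine ⟨(⟨x, hP x y h4⟩, ⟨y, hP y x h4.symm⟩), ?_, rfl⟩
    rw [Finset.mem_coe, Finset.mem_filter]
    exact ⟨Finset.mem_univ _, h4⟩
  have h4 : (Nat.card {w // ¬ P w} : ℝ) ≤ Nat.card W := by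
    exact_mod_cast Nat.card_le_card_of_injective _ Subtype.val_injective
  have h5 : (e2 K : ℝ) ≤ e2 (K.comap (fun w : {w // ¬ P w} => (w : W))) := by exact_mod_cast h3
  calc (e2 K : ℝ) ≤ _ := h5
    _ ≤ 2 * ρ * Nat.card {w // ¬ P w} := h2
    _ ≤ 2 * ρ * Nat.card W := by
        exact mul_le_mul_of_nonneg_left h4 (by positivity)

end ET

open ET in
theorem stmt_ET : Stmt_ET := by
  classical
  intro w n G hG
  obtain ⟨e, N, h1, h2, h3, h4⟩ := hG
  set G' : SimpleGraph (Fin n) := G.comap e with hG'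
  obtain ⟨col, hcol⟩ := ET.exists_col h1 h2
  obtain ⟨t, φ, hφ, hr, hR, hA, hs, he⟩ := ET.main (G := G') h1 h3 h4 hcol n Finset.univ
    (fun _ => none) (by simp) (by simp) (by simp) (by simp)
  refine ⟨t, by simpa using hs, ?_, fun ρ hρ hMR => ?_⟩
  · have h5 : e2 G = e2 G' := (e2_congr (H := G') (G := G) e fun i j => Iff.rfl).symm
    rw [h5, he, e2_eq_sum]
    have h6 : ∀ x : Fin n, ((N x).filter fun u => G'.Adj u x).card =
        ∑ u, if u < x ∧ G'.Adj u x then 1 else 0 := by
      intro x
      have h7 : (N x).filter (fun u => G'.Adj u x) =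
          Finset.univ.filter (fun u => u < x ∧ G'.Adj u x) := by
        ext u
        rw [Finset.mem_filter, Finset.mem_filter]
        constructor
        · rintro ⟨h7, h8⟩; exact ⟨Finset.mem_univ _, h1 x u h7, h8⟩
        · rintro ⟨-, h7, h8⟩; exact ⟨h4 u x h7 h8, h8⟩
      rw [h7, Finset.card_filter]
    have h7 : ∀ x y : Fin n, (if G'.Adj x y then 1 else 0) =
        (if y < x ∧ G'.Adj y x then 1 else 0) + (if x < y ∧ G'.Adj x y then 1 else 0) := by
      intro x y
      by_cases h8 : G'.Adj x y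
      · rcases lt_trichotomy x y with h9 | h9 | h9
        · rw [if_pos h8, if_neg (fun h => absurd h.1 (not_lt.mpr h9.le)), if_pos ⟨h9, h8⟩]
        · rw [h9] at h8; exact absurd h8 (G'.loopless.irrefl _)
        · rw [if_pos h8, if_pos ⟨h9, h8.symm⟩, if_neg (fun h => absurd h.1 (not_lt.mpr h9.le))]
      · rw [if_neg h8, if_neg (fun h => h8 h.2.symm), if_neg (fun h => h8 h.2)]
    have h8 : ∑ x : Fin n, ∑ y : Fin n, (if x < y ∧ G'.Adj x y then 1 else 0) =
        ∑ x : Fin n, ∑ y : Fin n, (if y < x ∧ G'.Adj y x then 1 else 0) := Finset.sum_comm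
    have h9 : ∑ x : Fin n, ∑ y : Fin n, (if G'.Adj x y then 1 else 0) =
        2 * ∑ x : Fin n, ∑ y : Fin n, (if y < x ∧ G'.Adj y x then 1 else 0) := by
      have h10 : ∑ x : Fin n, ∑ y : Fin n, (if G'.Adj x y then 1 else 0) =
          ∑ x : Fin n, ∑ y : Fin n, (if y < x ∧ G'.Adj y x then 1 else 0) +
          ∑ x : Fin n, ∑ y : Fin n, (if x < y ∧ G'.Adj x y then 1 else 0) := by
        rw [← Finset.sum_add_distrib]
        refine Finset.sum_congr rfl fun x _ => ?_
        rw [← Finset.sum_add_distrib]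
        exact Finset.sum_congr rfl fun y _ => h7 x y
      rw [h10, h8, two_mul]
    have h11 : ∑ x : Fin n, ((N x).filter fun u => G'.Adj u x).card =
        ∑ x : Fin n, ∑ y : Fin n, (if y < x ∧ G'.Adj y x then 1 else 0) :=
      Finset.sum_congr rfl fun x _ => h6 x
    have h12 : (∑ x : Fin n, ((N x).filter fun u => G'.Adj u x).card) = t.edg := by
      rw [he]
      refine Finset.sum_congr rfl fun x _ => ?_
      congr!
    rw [← he, ← h12, h11, ← h9]
    refine Finset.sum_congr rfl fun x _ => Finset.sum_congr rfl fun y _ => ?_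
    congr!
  · have hG'MR : MR ρ G' := hMR.minor (minor_of_inj e e.injective fun i j h => h)
    have hH : MR ρ t.H := hG'MR.minor (minor_of_inj φ hφ fun i j h => (hR i j).mp h)
    have h5 := MR_isolated (R := Fin (w + 1)) hρ hH
    have h6 : t.B = Glue (⊥ : SimpleGraph (Fin (w + 1))) id t.H (fun _ _ => False) := by
      unfold Tm.B
      congr 1
      funext b c
      rw [hA]
      simp
    rw [h6]
    exact h5

end Pool.Agent.Work.MP_216d61_lc
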