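import Pool.Agent.Work.MP_216d61_lc_helper79.Interface3

/-!
# Block TWM: treewidth is monotone under minors
-/

set_option autoImplicit false

namespace Pool.Agent.Work.MP_216d61_lc

open Relation Set

section anc

variable {n : ℕ} {N : Fin n → Finset (Fin n)}

/-- `v` is an ancestor of `s` in the elimination forest; the parent of `a` is the largest element
of `N a`. -/
def Anc (N : Fin n → Finset (Fin n)) (v s : Fin n) : Prop :=
  ReflTransGen (fun a b => b ∈ N a ∧ ∀ c ∈ N a, c ≤ b) s v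

theorem Anc.le (h1 : ∀ v, ∀ u ∈ N v, u < v) {v s : Fin n} (h : Anc N v s) : v ≤ s := by
  induction h with
  | refl => exact le_refl _
  | tail _ hbc ih => exact (h1 _ _ hbc.1).le.trans ih

theorem anc_of_mem (h1 : ∀ v, ∀ u ∈ N v, u < v)
    (h3 : ∀ v, ∀ u ∈ N v, ∀ u' ∈ N v, u' < u → u' ∈ N u) :
    ∀ (k : ℕ) (s u : Fin n), (s : ℕ) < k → u ∈ N s → Anc N u s := by
  intro k
  induction k with
  | zero => intro s u hs; omega
  | succ k ih =>
    intro s u hs hu
    obtain ⟨p, hp, hmax⟩ := (N s).exists_max_image id ⟨u, hu⟩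
    have hps := h1 s p hp
    rcases (hmax u hu : u ≤ p).eq_or_lt with h | h
    · subst h
      exact ReflTransGen.single ⟨hp, hmax⟩
    · have h4 := h3 s p hp u hu h
      refine ReflTransGen.head ⟨hp, hmax⟩ (ih p u ?_ h4)
      have : (p : ℕ) < s := hps
      omega

theorem Anc.comp (h1 : ∀ v, ∀ u ∈ N v, u < v) {a b s : Fin n} (ha : Anc N a s) (hb : Anc N b s)
    (hab : a ≤ b) : Anc N a b := by
  unfold Anc at hb
  induction hb using ReflTransGen.head_induction_on with
  | refl => exact ha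
  | @head s s' hs hsb ih =>
    apply ih
    unfold Anc at ha
    rcases ReflTransGen.cases_head ha with h | ⟨c, hc, hca⟩
    · exfalso
      have h2 := Anc.le (N := N) h1 hsb
      have h4 := h1 _ _ hs.1
      rw [h] at h4
      exact absurd (hab.trans h2) (not_le.2 h4)
    · have : c = s' := le_antisymm (hs.2 c hc.1) (hc.2 s' hs.1)
      subst this
      exact hca

theorem Anc.mem (h1 : ∀ v, ∀ u ∈ N v, u < v)
    (h3 : ∀ v, ∀ u ∈ N v, ∀ u' ∈ N v, u' < u → u' ∈ N u) {v s x : Fin n} (h : Anc N v s)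
    (hx : x ∈ N s) (hxv : x < v) : x ∈ N v := by
  unfold Anc at h
  induction h using ReflTransGen.head_induction_on with
  | refl => exact hx
  | @head s s' hs hsb ih =>
    apply ih
    have h2 := Anc.le (N := N) h1 hsb
    exact h3 s s' hs.1 x hx (hxv.trans_le h2)

/-- One step along an edge. -/
theorem Anc.step (h1 : ∀ v, ∀ u ∈ N v, u < v)
    (h3 : ∀ v, ∀ u ∈ N v, ∀ u' ∈ N v, u' < u → u' ∈ N u) {m p q : Fin n} (h : Anc N m p)
    (hpq : p ∈ N q ∨ q ∈ N p) : Anc N m q ∨ q ∈ N m := by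
  rcases hpq with hpq | hpq
  · left
    exact (anc_of_mem h1 h3 _ q p (Nat.lt_succ_self _) hpq).trans h
  · rcases lt_or_ge q m with hq | hq
    · right
      exact h.mem h1 h3 hpq hq
    · left
      exact h.comp h1 (anc_of_mem h1 h3 _ p q (Nat.lt_succ_self _) hpq) hq

/-- Along a connected set: either everything is below `m` or the set meets `N m`. -/
theorem Anc.walk (h1 : ∀ v, ∀ u ∈ N v, u < v)
    (h3 : ∀ v, ∀ u ∈ N v, ∀ u' ∈ N v, u' < u → u' ∈ N u) {m p q : Fin n} {S : Set (Fin n)}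
    (h : Anc N m p) (hpq : ReflTransGen (fun a b => (a ∈ N b ∨ b ∈ N a) ∧ a ∈ S ∧ b ∈ S) p q) :
    Anc N m q ∨ ∃ y ∈ S, y ∈ N m := by
  induction hpq with
  | refl => exact Or.inl h
  | tail _ hbc ih =>
    rcases ih with ih | ih
    · rcases ih.step h1 h3 hbc.1 with h | h
      · exact Or.inl h
      · exact Or.inr ⟨_, hbc.2.2, h⟩
    · exact Or.inr ih

end anc

/-- **Block TWM**. -/
theorem stmt_TWM : Stmt_TWM := by
  classical
  intro w n m G H hG hH
  obtain ⟨e, N, h1, h2, h3, h4⟩ := hG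
  rw [minor_iff] at hH
  obtain ⟨f, hf⟩ := hH
  -- the branch sets in the elimination order
  set g : Fin m → Set (Fin n) := fun i => {u | e u ∈ f i} with hg
  have gconn : ∀ i, ∀ x ∈ g i, ∀ y ∈ g i,
      ReflTransGen (fun a b => (a ∈ N b ∨ b ∈ N a) ∧ a ∈ g i ∧ b ∈ g i) x y := by
    intro i x hx y hy
    have h5 := (hf.conn i).2 (e x) hx (e y) hy
    have h6 := ReflTransGen.lift (p := fun a b => (a ∈ N b ∨ b ∈ N a) ∧ a ∈ g i ∧ b ∈ g i)
      (fun a => e.symm a) (fun a b hab => by
        refine ⟨?_, by simpa [hg] using hab.2.1, by simpa [hg] using hab.2.2⟩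
        have hne : e.symm a ≠ e.symm b := fun h => hab.1.ne (e.symm.injective h)
        rcases lt_or_gt_of_ne hne with h | h
        · left
          apply h4 _ _ h
          simpa using hab.1
        · right
          apply h4 _ _ h
          simpa using hab.1.symm) _ _ h5
    have h7 : ReflTransGen (fun a b => (a ∈ N b ∨ b ∈ N a) ∧ a ∈ g i ∧ b ∈ g i)
        (e.symm (e x)) (e.symm (e y)) := h6
    simpa using h7
  have gadj : ∀ i j, H.Adj i j → ∃ a ∈ g i, ∃ b ∈ g j, a ∈ N b ∨ b ∈ N a := by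
    intro i j hij
    obtain ⟨a, ha, b, hb, hab⟩ := hf.adj i j hij
    refine ⟨e.symm a, by simpa [hg] using ha, e.symm b, by simpa [hg] using hb, ?_⟩
    have hne : e.symm a ≠ e.symm b := fun h => hab.ne (e.symm.injective h)
    rcases lt_or_gt_of_ne hne with h | h
    · left
      apply h4 _ _ h
      simpa using hab
    · right
      apply h4 _ _ h
      simpa using hab.symm
  have gdisj : ∀ i j x, x ∈ g i → x ∈ g j → i = j := fun i j x hi hj => hf.eq_of_mem hi hj
  -- minima
  have hmin : ∀ i, ∃ x ∈ g i, ∀ y ∈ g i, x ≤ y := by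
    intro i
    obtain ⟨x, hx⟩ := (hf.conn i).1
    have hne : (Finset.univ.filter fun u => u ∈ g i).Nonempty :=
      ⟨e.symm x, by simp [hg, hx]⟩
    obtain ⟨x, hx, hx'⟩ := Finset.exists_min_image _ id hne
    rw [Finset.mem_filter] at hx
    refine ⟨x, hx.2, fun y hy => hx' y (by simp [hy])⟩
  choose μ hμ hμ' using hmin
  have μinj : Function.Injective μ := fun i j h => gdisj i j (μ i) (hμ i) (h ▸ hμ j)
  -- every element of a branch set is a descendant of the minimum
  have desc : ∀ i, ∀ s ∈ g i, Anc N (μ i) s := by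
    intro i s hs
    rcases Anc.walk h1 h3 (m := μ i) (S := g i) ReflTransGen.refl (gconn i _ (hμ i) s hs) with
      h | ⟨y, hy, hy'⟩
    · exact h
    · exact absurd (hμ' i y hy) (not_le.2 (h1 _ _ hy'))
  -- adjacent branch sets
  have adjl : ∀ i j, μ j < μ i → (∃ a ∈ g j, ∃ b ∈ g i, a ∈ N b ∨ b ∈ N a) →
      ∃ y ∈ g j, y ∈ N (μ i) := by
    rintro i j hij ⟨a, ha, b, hb, hab⟩
    rcases (desc i b hb).step h1 h3 hab.symm with h | h
    · rcases h.walk h1 h3 (gconn j a ha (μ j) (hμ j)) with h | h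
      · exact absurd (h.le h1) (not_le.2 hij)
      · exact h
    · exact ⟨a, ha, h⟩
  -- the new ordering
  set τ := Tuple.sort μ with hτ
  have hmono : StrictMono (μ ∘ τ) :=
    (Tuple.monotone_sort μ).strictMono_of_injective (μinj.comp τ.injective)
  refine ⟨τ, fun v => Finset.univ.filter fun u => u < v ∧ ∃ x ∈ g (τ u), x ∈ N (μ (τ v)),
    ?_, ?_, ?_, ?_⟩
  · intro v u hu
    simp only [Finset.mem_filter, Finset.mem_univ, true_and] at hu
    exact hu.1
  · intro v
    refine le_trans ?_ (h2 (μ (τ v)))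
    set ψ : Fin n → Fin m := fun x => if h : ∃ u, x ∈ g (τ u) then h.choose else v with hψ
    refine le_trans (Finset.card_le_card (t := (N (μ (τ v))).image ψ) ?_) Finset.card_image_le
    intro u hu
    simp only [Finset.mem_filter, Finset.mem_univ, true_and] at hu
    obtain ⟨x, hx, hx'⟩ := hu.2
    rw [Finset.mem_image]
    refine ⟨x, hx', ?_⟩
    have h : ∃ u, x ∈ g (τ u) := ⟨u, hx⟩
    have e1 : ψ x = h.choose := by
      rw [hψ]
      simp only [dif_pos h]
    rw [e1]
    exact τ.injective (gdisj _ _ x h.choose_spec hx)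
  · intro v u hu u' hu' huu
    simp only [Finset.mem_filter, Finset.mem_univ, true_and] at hu hu' ⊢
    obtain ⟨x, hx, hxN⟩ := hu.2
    obtain ⟨x', hx', hxN'⟩ := hu'.2
    refine ⟨huu, adjl (τ u) (τ u') (hmono huu) ⟨x', hx', x, hx, ?_⟩⟩
    rcases lt_trichotomy x x' with h | h | h
    · right
      exact h3 _ _ hxN' _ hxN h
    · exfalso
      rw [h] at hx
      exact huu.ne (τ.injective (gdisj _ _ x' hx' hx))
    · left
      exact h3 _ _ hxN _ hxN' h
  · intro u v huv hadj
    simp only [Finset.mem_filter, Finset.mem_univ, true_and]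
    exact ⟨huv, adjl (τ v) (τ u) (hmono huv) (gadj _ _ hadj)⟩

end Pool.Agent.Work.MP_216d61_lc
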